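import Pool.Agent.H53.HR.Targets

/-!
# Module DIG of board hr_modules (MP_f2da09_co)
-/

namespace Pool.Agent.H69.HR

open Finset
open Pool.Agent.H53.CZD (lc LE VMClosed R0)
open Pool.Agent.H53.HR

open Classical in
theorem dig_aux {α : Type} [DecidableEq α] (U : Finset α) (bad : α → α → Prop) (d : ℕ) (hU : U.Nonempty)
    (hd : ∀ x ∈ U, #(U.filter (fun y => y ≠ x ∧ bad x y)) ≤ d) :
    ∃ x ∈ U, #(U.filter (fun y => y ≠ x ∧ bad y x)) ≤ d := by
  by_contra hcon
  push Not at hcon
  have h1 : ∑ x ∈ U, #(U.filter (fun y => y ≠ x ∧ bad x y)) =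
      ∑ x ∈ U, #(U.filter (fun y => y ≠ x ∧ bad y x)) := by
    simp only [Finset.card_filter]
    rw [Finset.sum_comm]
    refine Finset.sum_congr rfl ?_
    intro x _
    refine Finset.sum_congr rfl ?_
    intro y _
    by_cases h : x = y
    · subst h; simp
    · have h' : ¬ y = x := fun e => h e.symm
      simp [h, h']
  have h2 : ∑ x ∈ U, #(U.filter (fun y => y ≠ x ∧ bad x y)) ≤ ∑ _x ∈ U, d :=
    Finset.sum_le_sum hd
  have h3 : ∑ _x ∈ U, d < ∑ x ∈ U, #(U.filter (fun y => y ≠ x ∧ bad y x)) :=
    Finset.sum_lt_sum_of_nonempty hU hcon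
  omega

open Classical in
theorem dig : Pool.Agent.H53.HR.DIG := by
  intro α inst U bad d m
  induction m generalizing U with
  | zero =>
    intro _ _
    exact ⟨∅, Finset.empty_subset _, rfl, by simp⟩
  | succ m ih =>
    intro hd hm
    have hU : U.Nonempty := by
      rw [← Finset.card_pos]
      have : (m + 1) * (2 * d + 1) = m * (2 * d + 1) + (2 * d + 1) := by ring
      omega
    obtain ⟨x, hx, hxin⟩ := dig_aux U bad d hU hd
    set A := U.filter (fun y => y ≠ x ∧ bad x y) with hA
    set B := U.filter (fun y => y ≠ x ∧ bad y x) with hB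
    set U' := U.filter (fun y => y ≠ x ∧ ¬ bad x y ∧ ¬ bad y x) with hU'
    have hsub : U ⊆ ((A ∪ B) ∪ {x}) ∪ U' := by
      intro y hy
      by_cases h0 : y = x
      · subst h0
        exact Finset.mem_union_left _ (Finset.mem_union_right _ (Finset.mem_singleton_self _))
      · by_cases h1 : bad x y
        · refine Finset.mem_union_left _ (Finset.mem_union_left _ (Finset.mem_union_left _ ?_))
          exact Finset.mem_filter.2 ⟨hy, h0, h1⟩
        · by_cases h2 : bad y x
          · refine Finset.mem_union_left _ (Finset.mem_union_left _ (Finset.mem_union_right _ ?_))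
            exact Finset.mem_filter.2 ⟨hy, h0, h2⟩
          · exact Finset.mem_union_right _ (Finset.mem_filter.2 ⟨hy, h0, h1, h2⟩)
    have hcard : #U ≤ #A + #B + 1 + #U' := by
      have c1 := Finset.card_le_card hsub
      have c2 := Finset.card_union_le ((A ∪ B) ∪ {x}) U'
      have c3 := Finset.card_union_le (A ∪ B) {x}
      have c4 := Finset.card_union_le A B
      have c5 : #({x} : Finset α) = 1 := Finset.card_singleton x
      omega
    have hAd : #A ≤ d := hd x hx
    have hm' : m * (2 * d + 1) ≤ #U' := by
      have : (m + 1) * (2 * d + 1) = m * (2 * d + 1) + (2 * d + 1) := by ring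
      omega
    have hd' : ∀ z ∈ U', #(U'.filter (fun y => y ≠ z ∧ bad z y)) ≤ d := by
      intro z hz
      have hzU : z ∈ U := (Finset.mem_filter.1 hz).1
      refine le_trans (Finset.card_le_card ?_) (hd z hzU)
      exact Finset.filter_subset_filter _ (Finset.filter_subset _ _)
    obtain ⟨W, hW, hWm, hWi⟩ := ih U' hd' hm'
    have hxW : x ∉ W := by
      intro h
      exact (Finset.mem_filter.1 (hW h)).2.1 rfl
    refine ⟨insert x W, ?_, ?_, ?_⟩
    · intro y hy
      rcases Finset.mem_insert.1 hy with h | h
      · exact h ▸ hx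
      · exact (Finset.mem_filter.1 (hW h)).1
    · rw [Finset.card_insert_of_notMem hxW, hWm]
    · intro a ha b hb hab
      rcases Finset.mem_insert.1 ha with h | h
      · rcases Finset.mem_insert.1 hb with h' | h'
        · exact absurd (h.trans h'.symm) hab
        · rw [h]
          exact (Finset.mem_filter.1 (hW h')).2.2.1
      · rcases Finset.mem_insert.1 hb with h' | h'
        · rw [h']
          exact (Finset.mem_filter.1 (hW h)).2.2.2
        · exact hWi a h b h' hab

end Pool.Agent.H69.HR
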