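import Pool.Agent.H53.HR.Targets

/-!
# Modules LCC, LTR of board hr_modules (MP_f2da09_co)
-/

namespace Pool.Agent.H69.HR

open Finset
open Pool.Agent.H53.CZD (lc LE VMClosed R0)
open Pool.Agent.H53.HR

theorem lcc : Pool.Agent.H53.HR.LCC := by
  classical
  intro V G Q v hc hv
  refine ⟨hc.1, ?_⟩
  intro S hS hSne hSQ
  by_contra hno
  push Not at hno
  have key : ∀ x ∈ S, ∀ y ∈ Q, y ∉ S → ¬ G.Adj x y := by
    intro x hx y hy hyS hxy
    have hne : x ≠ y := fun h => hyS (h ▸ hx)
    have h0 := hno x hx y hy hyS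
    -- x y toggled
    have h1 : G.Adj v x ∧ G.Adj v y := by
      by_contra hcon
      apply h0
      refine ⟨hne, ?_⟩
      intro hiff
      exact hcon (hiff.1 hxy)
    by_cases hvS : v ∈ S
    · -- v in S, y not in S, v adj y
      have hvy : v ≠ y := G.ne_of_adj h1.2
      have h2 := hno v hvS y hy hyS
      apply h2
      refine ⟨hvy, ?_⟩
      intro hiff
      exact G.irrefl (hiff.1 h1.2).1
    · have hxv : x ≠ v := fun h => hvS (h ▸ hx)
      have h2 := hno x hx v hv hvS
      apply h2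
      refine ⟨hxv, ?_⟩
      intro hiff
      exact G.irrefl (hiff.1 h1.1.symm).2
  obtain ⟨x, hx, y, hy, hyS, hxy⟩ := hc.2 S hS hSne hSQ
  exact key x hx y hy hyS hxy

theorem ltr : Pool.Agent.H53.HR.LTR := by
  classical
  intro V _ G Q q h hh hq
  have hhq : h ≠ q := fun e => hh (e ▸ hq)
  refine ⟨?_, ?_, ?_⟩
  · funext i
    simp only [nb, Pi.add_apply, Pi.smul_apply, smul_eq_mul]
    by_cases hi : i ∈ Q
    · have hhi : h ≠ i := fun e => hh (e ▸ hi)
      have e1 : (lc G q).Adj h i ↔ ¬ (G.Adj h i ↔ (G.Adj q h ∧ G.Adj q i)) := by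
        constructor
        · intro h1; exact h1.2
        · intro h1; exact ⟨hhi, h1⟩
      have e2 : G.Adj h q ↔ G.Adj q h := G.adj_comm h q
      simp only [hi, hq, true_and, e1, e2]
      by_cases a1 : G.Adj h i <;> by_cases a2 : G.Adj q h <;> by_cases a3 : G.Adj q i <;>
        simp [a1, a2, a3] <;> decide
    · simp [hi]
  · funext i
    simp only [nb, Pi.add_apply, Pi.smul_apply, smul_eq_mul, Finset.mem_erase]
    by_cases hiq : i = q
    · subst hiq
      by_cases a1 : G.Adj h i
      · simp [hq, a1]; decide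
      · simp [hq, a1]
    · simp [hiq, Pi.single_apply]
  · ext a b
    have hq1 : ∀ c, (lc G q).Adj q c ↔ G.Adj q c := by
      intro c
      constructor
      · intro h1
        by_contra hcon
        apply h1.2
        constructor
        · intro h2; exact absurd h2 hcon
        · intro h2; exact absurd h2.1 (G.irrefl)
      · intro h1
        refine ⟨G.ne_of_adj h1, ?_⟩
        intro hiff
        exact G.irrefl (hiff.1 h1).1
    have e0 : (lc (lc G q) q).Adj a b ↔
        a ≠ b ∧ ¬ ((lc G q).Adj a b ↔ ((lc G q).Adj q a ∧ (lc G q).Adj q b)) := Iff.rfl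
    have e1 : (lc G q).Adj a b ↔ a ≠ b ∧ ¬ (G.Adj a b ↔ (G.Adj q a ∧ G.Adj q b)) := Iff.rfl
    rw [e0, hq1 a, hq1 b, e1]
    by_cases hab : a = b
    · subst hab
      simp
    · by_cases a1 : G.Adj a b <;> by_cases a2 : G.Adj q a <;> by_cases a3 : G.Adj q b <;>
        simp [a1, a2, a3, hab]

end Pool.Agent.H69.HR
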